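import Pool.Agent.P8H9.UO.StmG

/-!
# Project UO: packages DET, KIL, CMT
-/

set_option autoImplicit false

namespace Pool.Agent.P8H52.UO

open Pool.Agent.P8H9.UO
open Pool.Agent.Q19.SU.Gen

section

variable {G V : Type} [Group G] [AddCommGroup V] {ρ : G → V →+ V}

theorem exists_mat {n : ℕ} {P Q : V} (hB : Bas n P Q) (g : G) :
    ∃ a b c d : ℤ, ρ g P = a • P + c • Q ∧ ρ g Q = b • P + d • Q := by
  obtain ⟨a, c, h⟩ := hB.span (ρ g P) (by rw [← map_zsmul, hB.hP, map_zero])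
  obtain ⟨b, d, h'⟩ := hB.span (ρ g Q) (by rw [← map_zsmul, hB.hQ, map_zero])
  exact ⟨a, b, c, d, h, h'⟩

theorem cast_eq {n : ℕ} {P Q : V} (hB : Bas n P Q) {a c a' c' : ℤ}
    (h : a • P + c • Q = a' • P + c' • Q) : (a : ZMod n) = a' ∧ (c : ZMod n) = c' := by
  have h1 : (a' - a) • P + (c' - c) • Q = 0 := by
    have e : (a' - a) • P + (c' - c) • Q = (a' • P + c' • Q) - (a • P + c • Q) := by module
    rw [e, h, sub_self]
  obtain ⟨h2, h3⟩ := hB.ind _ _ h1
  exact ⟨(ZMod.intCast_eq_intCast_iff_dvd_sub a a' n).2 h2,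
    (ZMod.intCast_eq_intCast_iff_dvd_sub c c' n).2 h3⟩

/-- The homomorphism to the matrices modulo `n`. -/
theorem exists_hom (hρ : Rep ρ) {n : ℕ} {P Q : V} (hB : Bas n P Q) :
    ∃ M : G →* Matrix (Fin 2) (Fin 2) (ZMod n), ∀ (g : G) (a b c d : ℤ),
      ρ g P = a • P + c • Q → ρ g Q = b • P + d • Q →
      M g = !![(a : ZMod n), (b : ZMod n); (c : ZMod n), (d : ZMod n)] := by
  choose A B C D hA hD using fun g : G => exists_mat (ρ := ρ) hB g
  have huniq : ∀ (g : G) (a b c d : ℤ), ρ g P = a • P + c • Q → ρ g Q = b • P + d • Q →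
      !![(A g : ZMod n), (B g : ZMod n); (C g : ZMod n), (D g : ZMod n)] =
        !![(a : ZMod n), (b : ZMod n); (c : ZMod n), (d : ZMod n)] := by
    intro g a b c d h1 h2
    rw [hA g] at h1
    rw [hD g] at h2
    obtain ⟨e1, e2⟩ := cast_eq hB h1
    obtain ⟨e3, e4⟩ := cast_eq hB h2
    rw [e1, e2, e3, e4]
  refine ⟨{
    toFun := fun g => !![(A g : ZMod n), (B g : ZMod n); (C g : ZMod n), (D g : ZMod n)]
    map_one' := ?_
    map_mul' := ?_ }, huniq⟩
  · rw [huniq 1 1 0 0 1 (by rw [hρ.one]; module) (by rw [hρ.one]; module)]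
    rw [Matrix.one_fin_two]
    simp
  · intro g h
    rw [huniq (g * h) (A g * A h + B g * C h) (A g * B h + B g * D h)
      (C g * A h + D g * C h) (C g * B h + D g * D h) ?_ ?_]
    · rw [Matrix.mul_fin_two]
      push_cast
      rfl
    · rw [hρ.mul, hA h, map_add, map_zsmul, map_zsmul, hA g, hD g]
      module
    · rw [hρ.mul, hD h, map_add, map_zsmul, map_zsmul, hA g, hD g]
      module

theorem RS.congr {m n : ℕ} {P Q : V} (hP : (n : ℤ) • P = 0) (hQ : (n : ℤ) • Q = 0)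
    {a b c d a' b' c' d' : ℤ} (h : RS ρ m P Q a b c d) (ha : (n : ℤ) ∣ a - a')
    (hb : (n : ℤ) ∣ b - b') (hc : (n : ℤ) ∣ c - c') (hd : (n : ℤ) ∣ d - d') :
    RS ρ m P Q a' b' c' d' := by
  obtain ⟨σ, hσ, h1, h2, h3⟩ := h
  refine ⟨σ, hσ, ?_, ?_, h3⟩
  · rw [h1, smul_congr hP ha, smul_congr hQ hc]
  · rw [h2, smul_congr hP hb, smul_congr hQ hd]

theorem RS.swap {m : ℕ} {P Q : V} {a b c d : ℤ} (h : RS ρ m Q P a b c d) :
    RS ρ m P Q d c b a := by
  obtain ⟨σ, hσ, h1, h2, h3⟩ := h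
  exact ⟨σ, hσ, by rw [h2, add_comm], by rw [h1, add_comm], h3⟩

theorem Rl.swap {m : ℕ} {P Q : V} {a b c d : ℤ} (h : Rl ρ m Q P a b c d) :
    Rl ρ m P Q d c b a := by
  obtain ⟨σ, h1, h2, h3⟩ := h
  exact ⟨σ, by rw [h2, add_comm], by rw [h1, add_comm], h3⟩

theorem Bas.swap {n : ℕ} {P Q : V} (h : Bas n P Q) : Bas n Q P where
  hP := h.hQ
  hQ := h.hP
  span R hR := by
    obtain ⟨a, b, e⟩ := h.span R hR
    exact ⟨b, a, by rw [e, add_comm]⟩
  ind a b hab := by
    obtain ⟨h1, h2⟩ := h.ind b a (by rw [add_comm]; exact hab)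
    exact ⟨h2, h1⟩

theorem AllN.swap {N n m : ℕ} {P Q : V} (h : AllN ρ N n m P Q) : AllN ρ N n m Q P := by
  intro a b c d h1 h2 h3 h4 h5
  refine Rl.swap (h d c b a ?_ h5 h4 h3 h2)
  have : d * a - c * b - 1 = a * d - b * c - 1 := by ring
  rw [this]; exact h1

theorem inv_app (hρ : Rep ρ) {σ : G} {X Y : V} (h : ρ σ X = Y) : ρ σ⁻¹ Y = X := by
  rw [← h, ← hρ.mul, inv_mul_cancel, hρ.one]

/-- The commutator of a diagonal matrix and a transvection. -/
theorem comm_core (hρ : Rep ρ) {n : ℕ} {P Q : V} (hP : (n : ℤ) • P = 0) (hQ : (n : ℤ) • Q = 0)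
    {A A' y : ℤ} (hA : (n : ℤ) ∣ A * A' - 1) (h1 : Rl ρ 1 P Q A 0 0 A')
    (h2 : Rl ρ 1 P Q 1 y 0 1) : RS ρ 1 P Q 1 ((A ^ 2 - 1) * y) 0 1 := by
  obtain ⟨σ, s1, s2, _⟩ := h1
  obtain ⟨τ, t1, t2, _⟩ := h2
  have eP : ∀ z : ℤ, (z * (A * A')) • P = z • P := fun z => by
    apply smul_congr hP
    have : z * (A * A') - z = z * (A * A' - 1) := by ring
    rw [this]; exact hA.mul_left _
  have eQ : ∀ z : ℤ, (z * (A * A')) • Q = z • Q := fun z => by
    apply smul_congr hQ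
    have : z * (A * A') - z = z * (A * A' - 1) := by ring
    rw [this]; exact hA.mul_left _
  have s1' : ρ σ⁻¹ P = A' • P := by
    apply inv_app hρ
    rw [map_zsmul, s1]
    have : A' • (A • P + (0 : ℤ) • Q) = (1 * (A * A')) • P := by module
    rw [this, eP, one_smul]
  have s2' : ρ σ⁻¹ Q = A • Q := by
    apply inv_app hρ
    rw [map_zsmul, s2]
    have : A • ((0 : ℤ) • P + A' • Q) = (1 * (A * A')) • Q := by module
    rw [this, eQ, one_smul]
  have t1' : ρ τ⁻¹ P = P := by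
    apply inv_app hρ
    rw [t1]; module
  have t2' : ρ τ⁻¹ Q = Q - y • P := by
    apply inv_app hρ
    rw [map_sub, map_zsmul, t1, t2]; module
  refine ⟨σ * τ * σ⁻¹ * τ⁻¹, ?_, ?_, ?_, ?_⟩
  · rw [commutator_def]
    exact Subgroup.commutator_mem_commutator (Subgroup.mem_top σ) (Subgroup.mem_top τ)
  · rw [hρ.mul, hρ.mul, hρ.mul, t1', s1', map_zsmul, t1, map_zsmul, map_add, map_zsmul, map_zsmul,
      s1, s2]
    have : A' • ((1 : ℤ) • (A • P + (0 : ℤ) • Q) + (0 : ℤ) • ((0 : ℤ) • P + A' • Q)) =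
      (1 * (A * A')) • P := by module
    rw [this, eP]; module
  · rw [hρ.mul, hρ.mul, hρ.mul, t2', map_sub, map_zsmul, s1', s2']
    simp only [map_sub, map_add, map_zsmul, t1, t2, s1, s2]
    have : A • (y • (A • P + (0 : ℤ) • Q) + (1 : ℤ) • ((0 : ℤ) • P + A' • Q)) -
      y • A' • ((1 : ℤ) • (A • P + (0 : ℤ) • Q) + (0 : ℤ) • ((0 : ℤ) • P + A' • Q)) =
      (A ^ 2 * y) • P - (y * (A * A')) • P + (1 * (A * A')) • Q := by module
    rw [this, eP, eQ]; module
  · intro R hR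
    rw [Nat.cast_one, one_smul] at hR
    rw [hR, map_zero]

end

theorem det : S_DET := by
  intro G V _ _ ρ hρ n P Q a b c d hn hB σ hσ h1 h2
  obtain ⟨M, hM⟩ := exists_hom hρ hB
  let φ : G →* ZMod n := (Matrix.detMonoidHom).comp M
  have h3 : φ.toHomUnits σ = 1 := Abelianization.commutator_subset_ker φ.toHomUnits hσ
  have h4 : φ σ = 1 := by
    have h5 := congrArg Units.val h3
    simpa using h5
  have h6 : φ σ = ((a * d - b * c : ℤ) : ZMod n) := by
    show (M σ).det = _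
    rw [hM σ a b c d h1 h2, Matrix.det_fin_two_of]
    push_cast
    rfl
  rw [h6] at h4
  have h7 : ((a * d - b * c - 1 : ℤ) : ZMod n) = 0 := by
    push_cast at h4 ⊢
    rw [h4, sub_self]
  exact (ZMod.intCast_zmod_eq_zero_iff_dvd _ _).1 h7

theorem kil : S_KIL := by
  intro G V _ _ ρ hρ p k hp σ R hR
  have : Fact p.Prime := ⟨hp⟩
  obtain ⟨P, Q, hB⟩ := hρ.bas p hp.one_le
  obtain ⟨M, hM⟩ := exists_hom hρ hB
  set e := (p ^ 2 - 1) * (p ^ 2 - p) with he
  have hcard : Nat.card (Matrix.GeneralLinearGroup (Fin 2) (ZMod p)) = e := by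
    rw [Matrix.card_GL_field]
    simp [Fin.prod_univ_two, ZMod.card, he]
  have h1 : M.toHomUnits (σ ^ e) = 1 := by
    rw [map_pow, ← hcard]
    exact pow_card_eq_one'
  have h2 : M (σ ^ e) = 1 := by
    have h5 := congrArg Units.val h1
    simpa using h5
  have htriv : ∀ X : V, (p : ℤ) • X = 0 → ρ (σ ^ e) X = X := by
    obtain ⟨a, b, c, d, ha, hb⟩ := exists_mat (ρ := ρ) hB (σ ^ e)
    have h3 := hM _ a b c d ha hb
    rw [h2, Matrix.one_fin_two] at h3
    have h4 : (a : ZMod p) = 1 := by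
      have := congrFun (congrFun h3 0) 0
      simpa using this.symm
    have h5 : (b : ZMod p) = 0 := by
      have := congrFun (congrFun h3 0) 1
      simpa using this.symm
    have h6 : (c : ZMod p) = 0 := by
      have := congrFun (congrFun h3 1) 0
      simpa using this.symm
    have h7 : (d : ZMod p) = 1 := by
      have := congrFun (congrFun h3 1) 1
      simpa using this.symm
    have cong : ∀ {x y : ℤ}, (x : ZMod p) = y → (p : ℤ) ∣ x - y := by
      intro x y hxy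
      exact (ZMod.intCast_eq_intCast_iff_dvd_sub y x p).1 hxy.symm
    have hP : ρ (σ ^ e) P = P := by
      rw [ha, smul_congr hB.hP (cong (y := 1) (by simpa using h4)),
        smul_congr hB.hQ (cong (y := 0) (by simpa using h6))]
      module
    have hQ : ρ (σ ^ e) Q = Q := by
      rw [hb, smul_congr hB.hP (cong (y := 0) (by simpa using h5)),
        smul_congr hB.hQ (cong (y := 1) (by simpa using h7))]
      module
    intro X hX
    obtain ⟨x, y, rfl⟩ := hB.span X hX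
    rw [map_add, map_zsmul, map_zsmul, hP, hQ]
  have hpow : ∀ j : ℕ, ∀ X : V, ((p : ℤ) ^ (j + 1)) • X = 0 → ρ ((σ ^ e) ^ (p ^ j)) X = X := by
    intro j
    induction j with
    | zero =>
      intro X hX
      rw [pow_zero, pow_one]
      exact htriv X (by simpa using hX)
    | succ j ih =>
      intro X hX
      set τ := (σ ^ e) ^ (p ^ j) with hτ
      have hpX : ((p : ℤ) ^ (j + 1)) • ((p : ℤ) • X) = 0 := by
        rw [smul_smul, ← pow_succ]; exact hX
      have h3 := ih _ hpX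
      set Y := ρ τ X - X with hY
      have hY0 : (p : ℤ) • Y = 0 := by
        rw [hY, smul_sub, ← map_zsmul, h3, sub_self]
      have hY1 : ρ τ Y = Y := ih Y (by
        rw [pow_succ, mul_smul, hY0, smul_zero])
      have h4 : ∀ m : ℕ, ρ (τ ^ m) X = X + (m : ℤ) • Y := by
        intro m
        induction m with
        | zero => rw [pow_zero, hρ.one]; simp
        | succ m ihm =>
          rw [pow_succ', hρ.mul, ihm, map_add, map_zsmul, hY1]
          have : ρ τ X = X + Y := by rw [hY]; abel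
          rw [this]
          push_cast
          module
      have h5 := h4 p
      rw [hY0, add_zero] at h5
      rw [pow_succ (p) j, pow_mul]
      exact h5
  rw [pow_mul]
  refine hpow k R ?_
  rw [pow_succ', mul_smul, hR, smul_zero]

theorem exists_inv {p : ℕ} (hp : p.Prime) (k : ℕ) {c : ℤ} (hc : ¬ (p : ℤ) ∣ c) :
    ∃ w : ℤ, (p : ℤ) ^ k ∣ c * w - 1 := by
  have hpp : Prime (p : ℤ) := Nat.prime_iff_prime_int.1 hp
  have hcop : IsCoprime c ((p : ℤ) ^ k) := ((hpp.coprime_iff_not_dvd.2 hc).symm).pow_right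
  obtain ⟨u, v, huv⟩ := hcop
  exact ⟨u, -v, by linear_combination huv⟩

theorem cmt_half {G V : Type} [Group G] [AddCommGroup V] {ρ : G → V →+ V} (hρ : Rep ρ)
    {p k : ℕ} {P Q : V} (hp : p.Prime) (hB : Bas (p ^ k) P Q) :
    (∀ M : ℕ, 2 ≤ M → AllN ρ (p ^ M) (p ^ k) 1 P Q → ∀ x : ℤ, (p : ℤ) ^ (2 * M + 1) ∣ x →
      RS ρ 1 P Q 1 x 0 1) ∧
    (5 ≤ p → AllN ρ 1 (p ^ k) 1 P Q → ∀ x : ℤ, RS ρ 1 P Q 1 x 0 1) := by
  have hpp : Prime (p : ℤ) := Nat.prime_iff_prime_int.1 hp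
  have hp1 : ¬ (p : ℤ) ∣ 1 := fun h => hpp.not_isUnit (isUnit_of_dvd_one h)
  constructor
  · intro M hM hall x hx
    have hpM : (p : ℤ) ∣ (p : ℤ) ^ M := dvd_pow_self _ (by omega)
    have hA : ¬ (p : ℤ) ∣ 1 + (p : ℤ) ^ M := by
      intro h
      exact hp1 ((dvd_add_left hpM).1 h)
    obtain ⟨A', hA'⟩ := exists_inv hp (k + M) hA
    have hA1 : (p : ℤ) ^ k ∣ (1 + (p : ℤ) ^ M) * A' - 1 :=
      (pow_dvd_pow _ (by omega)).trans hA'
    have hA2 : (p : ℤ) ^ M ∣ A' - 1 := by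
      have h1 : (p : ℤ) ^ M ∣ (1 + (p : ℤ) ^ M) * A' - 1 := (pow_dvd_pow _ (by omega)).trans hA'
      have h2 : A' - 1 = ((1 + (p : ℤ) ^ M) * A' - 1) - (p : ℤ) ^ M * A' := by ring
      rw [h2]
      exact h1.sub (Dvd.intro _ rfl)
    -- the factor `2 + p ^ M`
    obtain ⟨f, c, hf, hc, hfc⟩ : ∃ (f : ℕ) (c : ℤ), f ≤ 1 ∧ ¬ (p : ℤ) ∣ c ∧
        2 + (p : ℤ) ^ M = (p : ℤ) ^ f * c := by
      rcases hp.eq_two_or_odd' with h2 | hodd
      · subst h2
        refine ⟨1, 1 + (2 : ℤ) ^ (M - 1), le_rfl, ?_, ?_⟩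
        · intro h
          have h3 : ((2 : ℕ) : ℤ) ∣ (2 : ℤ) ^ (M - 1) := by
            push_cast
            exact dvd_pow_self _ (by omega)
          exact hp1 ((dvd_add_left h3).1 h)
        · obtain ⟨m, rfl⟩ : ∃ m, M = m + 1 := ⟨M - 1, by omega⟩
          have e0 : m + 1 - 1 = m := by omega
          rw [e0]
          push_cast
          ring
      · refine ⟨0, 2 + (p : ℤ) ^ M, by norm_num, ?_, by simp⟩
        intro h
        have h3 : (p : ℤ) ∣ ((2 : ℕ) : ℤ) := by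
          push_cast
          exact (dvd_add_left hpM).1 h
        have h4 : p ∣ 2 := by exact_mod_cast h3
        have h5 := (Nat.prime_dvd_prime_iff_eq hp Nat.prime_two).1 h4
        rw [h5] at hodd
        exact absurd hodd (by decide)
    obtain ⟨w, hw⟩ := exists_inv hp k hc
    obtain ⟨x', hx'⟩ := hx
    have key := comm_core hρ (n := p ^ k) hB.hP hB.hQ (A := 1 + (p : ℤ) ^ M) (A' := A')
      (y := (p : ℤ) ^ (M + 1 - f) * x' * w) (by push_cast; exact hA1)
      (hall _ _ _ _ (by push_cast; simpa using hA1) (by push_cast; simp) (dvd_zero _) (dvd_zero _)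
        (by push_cast; exact hA2))
      (hall _ _ _ _ (by simp) (by simp) (by
        push_cast
        exact ((pow_dvd_pow _ (by omega)).mul_right _).mul_right _) (dvd_zero _) (by simp))
    refine RS.congr hB.hP hB.hQ key (by simp) ?_ (by simp) (by simp)
    push_cast
    have e1 : ((1 + (p : ℤ) ^ M) ^ 2 - 1) * ((p : ℤ) ^ (M + 1 - f) * x' * w) - x =
        x * (c * w - 1) := by
      have e2 : (p : ℤ) ^ f * (p : ℤ) ^ (M + 1 - f) = (p : ℤ) ^ (M + 1) := by
        rw [← pow_add]; congr 1; omega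
      have e3 : (1 + (p : ℤ) ^ M) ^ 2 - 1 = (p : ℤ) ^ M * ((p : ℤ) ^ f * c) := by
        rw [← hfc]; ring
      rw [e3, hx']
      have e4 : (p : ℤ) ^ (2 * M + 1) = (p : ℤ) ^ M * (p : ℤ) ^ (M + 1) := by
        rw [← pow_add]; congr 1; omega
      rw [e4, ← e2]
      ring
    rw [e1]
    exact hw.mul_left _
  · intro h5 hall x
    have h2 : ¬ (p : ℤ) ∣ 2 := by
      intro h
      have h4 : p ∣ 2 := by exact_mod_cast h
      have := Nat.le_of_dvd (by norm_num) h4
      omega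
    have h3 : ¬ (p : ℤ) ∣ 3 := by
      intro h
      have h4 : p ∣ 3 := by exact_mod_cast h
      have := Nat.le_of_dvd (by norm_num) h4
      omega
    obtain ⟨A', hA'⟩ := exists_inv hp k h2
    obtain ⟨w, hw⟩ := exists_inv hp k h3
    have key := comm_core hρ (n := p ^ k) hB.hP hB.hQ (A := 2) (A' := A')
      (y := w * x) (by push_cast; exact hA')
      (hall _ _ _ _ (by push_cast; simpa using hA') (by simp) (by simp) (by simp) (by simp))
      (hall _ _ _ _ (by simp) (by simp) (by simp) (by simp) (by simp))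
    refine RS.congr hB.hP hB.hQ key (by simp) ?_ (by simp) (by simp)
    push_cast
    have e1 : ((2 : ℤ) ^ 2 - 1) * (w * x) - x = x * (3 * w - 1) := by ring
    have e2 := hw.mul_left x
    rw [← e1] at e2
    norm_num at e2 ⊢
    exact e2

theorem cmt : S_CMT := by
  intro G V _ _ ρ hρ p k P Q hp hB
  obtain ⟨h1, h2⟩ := cmt_half hρ hp hB
  obtain ⟨h3, h4⟩ := cmt_half hρ hp (Bas.swap hB)
  exact ⟨fun M hM hall x hx => ⟨h1 M hM hall x hx, RS.swap (h3 M hM (AllN.swap hall) x hx)⟩,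
    fun h5 hall x => ⟨h2 h5 hall x, RS.swap (h4 h5 (AllN.swap hall) x)⟩⟩

end Pool.Agent.P8H52.UO
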